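import Pool.Agent.Bal36.Up

/-!
# Balanced and unbalanced subsets with large sumsets: arithmetic progressions

The question of MP_10cf1f_co for the pairs of arithmetic progressions with a common difference in
`Z_p` (by Vosper's theorem the extremal pairs of the Cauchy-Davenport theorem). In this class the
balanced property holds exactly for `c ≥ 36 / 11`, and a function `c₁` with `(c, c₁)` admissible
exists exactly for `c ≥ 2`.
-/

namespace Pool.Agent.Results.MP_10cf1f_co.APConstants

open Finset Pool.Agent.Bal36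
open scoped Pointwise

/-- `A` and `B` are arithmetic progressions in `Z_p` with a common difference `d ≠ 0`. -/
def AreProgressions {p : ℕ} (A B : Finset (ZMod p)) : Prop :=
  ∃ a b d : ZMod p, d ≠ 0 ∧ A = (range A.card).image (fun i : ℕ => a + i * d) ∧
    B = (range B.card).image (fun i : ℕ => b + i * d)

/-- `(c, c₁)` is admissible for progressions. -/
def Admissible (c : ℝ) (c₁ : ℕ → ℝ) : Prop :=
  ∀ p n : ℕ, p.Prime → 0 < n → 3 * n ≤ p → ∀ A B : Finset (ZMod p), A.card = n → B.card = n →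
    AreProgressions A B → ∃ A' ⊆ A, ∃ B' ⊆ B, (A'.card : ℝ) ≤ c₁ n ∧
      (B'.card : ℝ) ≤ c * n / c₁ n ∧ 2 * n - 1 ≤ (A' + B').card

/-- `c` has the balanced property for progressions. -/
def Balanced (c : ℝ) : Prop :=
  ∀ p n : ℕ, p.Prime → 0 < n → 3 * n ≤ p → ∀ A B : Finset (ZMod p), A.card = n → B.card = n →
    AreProgressions A B → ∃ A' ⊆ A, ∃ B' ⊆ B, A'.card = B'.card ∧
      (A'.card : ℝ) ≤ √(c * n) ∧ 2 * n - 1 ≤ (A' + B').card

/-- From index sets to subsets of the two progressions. -/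
theorem of_cover {p n : ℕ} (hp : p.Prime) (hn : 0 < n) (h3 : 3 * n ≤ p) {A B : Finset (ZMod p)}
    (hA : A.card = n) (hB : B.card = n) (hAB : AreProgressions A B) {X Y : Finset ℕ}
    (hc : Cover n X Y) : ∃ A' ⊆ A, ∃ B' ⊆ B, A'.card ≤ X.card ∧ B'.card ≤ Y.card ∧
      2 * n - 1 ≤ (A' + B').card := by
  have : Fact p.Prime := ⟨hp⟩
  obtain ⟨a, b, d, hd, h1, h2⟩ := hAB
  rw [hA] at h1
  rw [hB] at h2
  refine ⟨X.image (fun i : ℕ => a + i * d), ?_, Y.image (fun i : ℕ => b + i * d), ?_,
    Finset.card_image_le, Finset.card_image_le, up hn h3 a b hd hc⟩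
  · rw [h1]
    exact Finset.image_subset_image hc.1
  · rw [h2]
    exact Finset.image_subset_image hc.2.1

theorem prog_std {p n : ℕ} (hp : p.Prime) (h3 : n ≤ p) :
    AreProgressions ((range n).image (fun i : ℕ => (i : ZMod p)))
      ((range n).image (fun i : ℕ => (i : ZMod p))) ∧
    ((range n).image (fun i : ℕ => (i : ZMod p))).card = n := by
  have : Fact p.Prime := ⟨hp⟩
  have hcard : ((range n).image (fun i : ℕ => (i : ZMod p))).card = n := by
    have := card_prog (p := p) 0 (d := 1) one_ne_zero h3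
    simpa using this
  refine ⟨⟨0, 0, 1, one_ne_zero, ?_, ?_⟩, hcard⟩ <;> rw [hcard] <;> simp

/-- **The balanced constant of progressions is `36 / 11`, the unbalanced one is `2`.** -/
theorem result (c : ℝ) :
    (Balanced c ↔ 36 / 11 ≤ c) ∧
    ((∃ c₁ : ℕ → ℝ, (∀ n, 0 < n → 0 < c₁ n) ∧ Admissible c c₁) ↔ 2 ≤ c) := by
  refine ⟨⟨?_, ?_⟩, ⟨?_, ?_⟩⟩
  · intro h
    by_contra hcon
    push Not at hcon
    obtain ⟨hP, hC⟩ := prog_std (p := 37) (n := 11) (by norm_num) (by norm_num)
    obtain ⟨A', hA', B', hB', hAB, hle, hs⟩ := h 37 11 (by norm_num) (by norm_num) (by norm_num)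
      _ _ hC hC hP
    have h6 : √(c * (11 : ℕ)) < 6 := by
      rw [Real.sqrt_lt' (by norm_num)]
      push_cast
      linarith
    have h5 : (A'.card : ℝ) < 6 := lt_of_le_of_lt hle h6
    have h5' : A'.card < 6 := by exact_mod_cast h5
    exact low hA' hB' (by omega) (by omega) hs
  · intro hc p n hp hn h3 A B hA hB hAB
    set k := Nat.sqrt (36 * n / 11) with hk
    have k1 : k ^ 2 ≤ 36 * n / 11 := Nat.sqrt_le' _
    have k2 : 36 * n / 11 < (k + 1) ^ 2 := Nat.lt_succ_sqrt' _
    obtain ⟨X, Y, hXY, cX, cY⟩ := exists_cover (k := k) hn (by omega) (by omega)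
    obtain ⟨A1, hA1, B1, hB1, h1, h2, hs⟩ := of_cover hp hn h3 hA hB hAB hXY
    set m := max A1.card B1.card with hm
    have mA : A1.card ≤ m := le_max_left _ _
    have mB : B1.card ≤ m := le_max_right _ _
    have mn : m ≤ n := by
      have e1 := Finset.card_le_card hA1
      have e2 := Finset.card_le_card hB1
      omega
    have mk : m ≤ k := by omega
    obtain ⟨A', u1, u2, u3⟩ := Finset.exists_subsuperset_card_eq hA1 mA (by omega)
    obtain ⟨B', v1, v2, v3⟩ := Finset.exists_subsuperset_card_eq hB1 mB (by omega)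
    refine ⟨A', u2, B', v2, by rw [u3, v3], ?_, hs.trans
      (Finset.card_le_card (Finset.add_subset_add u1 v1))⟩
    rw [u3]
    apply Real.le_sqrt_of_sq_le
    have e1 : (11 : ℝ) * (k : ℝ) ^ 2 ≤ 36 * n := by
      have : 11 * k ^ 2 ≤ 36 * n := by omega
      exact_mod_cast this
    have e2 : (m : ℝ) ^ 2 ≤ (k : ℝ) ^ 2 := by
      have : (m : ℝ) ≤ k := by exact_mod_cast mk
      exact pow_le_pow_left₀ (Nat.cast_nonneg m) this 2
    have e3 : (36 / 11 : ℝ) * n ≤ c * n := mul_le_mul_of_nonneg_right hc (Nat.cast_nonneg n)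
    linarith
  · rintro ⟨c₁, hpos, h⟩
    obtain ⟨hP, hC⟩ := prog_std (p := 7) (n := 2) (by norm_num) (by norm_num)
    obtain ⟨A', hA', B', hB', h1, h2, hs⟩ := h 7 2 (by norm_num) (by norm_num) (by norm_num)
      _ _ hC hC hP
    have e1 := Finset.card_le_card hA'
    have e2 := Finset.card_le_card hB'
    rw [hC] at e1 e2
    have e3 : 3 ≤ A'.card * B'.card := hs.trans Finset.card_add_le
    have e4 : A'.card = 2 := by
      interval_cases A'.card <;> omega
    have e5 : B'.card = 2 := by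
      rw [e4] at e3
      omega
    rw [e4] at h1
    rw [e5] at h2
    have hp2 := hpos 2 (by norm_num)
    rw [le_div_iff₀ hp2] at h2
    push_cast at h1 h2
    linarith
  · intro hc
    refine ⟨fun n => (n : ℝ), fun n hn => Nat.cast_pos.2 hn, ?_⟩
    intro p n hp hn h3 A B hA hB hAB
    obtain ⟨A', hA', B', hB', h1, h2, hs⟩ := of_cover hp hn h3 hA hB hAB (cover_two n hn)
    refine ⟨A', hA', B', hB', ?_, ?_, hs⟩
    · have : A'.card ≤ n := by simpa using h1
      exact Nat.cast_le.2 this
    · have e1 : B'.card ≤ 2 := h2.trans Finset.card_le_two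
      have hn' : (n : ℝ) ≠ 0 := by positivity
      rw [mul_div_assoc, div_self hn', mul_one]
      have : (B'.card : ℝ) ≤ 2 := by exact_mod_cast e1
      linarith

end Pool.Agent.Results.MP_10cf1f_co.APConstants
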