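import Mathlib

/-!
# Balanced and unbalanced subsets with large sumsets: sets with many differences

The question of MP_10cf1f_co restricted to the pairs `A, B` of `n`-element sets with `n = 1` or
`|A - A| > n (n - 1) / 2 + 1`. For these pairs some two translates `a + B`, `a' + B` with `a, a' ∈ A` have at most one
common element, so `|{a, a'} + B| ≥ 2 n - 1`: all `c ≥ 2` are admissible with `c₁ ≤ 2`, and the value `2` is best
possible. But the balanced property needs `c ≥ 3`, because of `n = 3`, `A = B = {0, 1, 2}`.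
-/

set_option autoImplicit false

namespace Pool.Agent.Results.MP_10cf1f_co.LargeDifferences

open Finset
open scoped Pointwise

/-- `A` has more than `n (n - 1) / 2 + 1` differences, where `n = |A|`, or `n = 1`. -/
def Large {p : ℕ} (A : Finset (ZMod p)) : Prop :=
  A.card = 1 ∨ A.card * (A.card - 1) + 2 < 2 * (A - A).card

/-- `(c, c₁)` is admissible for the pairs `A, B` with `Large A`. -/
def Admissible (c : ℝ) (c₁ : ℕ → ℝ) : Prop :=
  ∀ p n : ℕ, p.Prime → 0 < n → 3 * n ≤ p → ∀ A B : Finset (ZMod p), A.card = n → B.card = n →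
    Large A → ∃ A' ⊆ A, ∃ B' ⊆ B, (A'.card : ℝ) ≤ c₁ n ∧ (B'.card : ℝ) ≤ c * n / c₁ n ∧
      2 * n - 1 ≤ (A' + B').card

/-- `c` has the balanced property for the pairs `A, B` with `Large A`. -/
def Balanced (c : ℝ) : Prop :=
  ∀ p n : ℕ, p.Prime → 0 < n → 3 * n ≤ p → ∀ A B : Finset (ZMod p), A.card = n → B.card = n →
    Large A → ∃ A' ⊆ A, ∃ B' ⊆ B, A'.card = B'.card ∧ (A'.card : ℝ) ≤ √(c * n) ∧
      2 * n - 1 ≤ (A' + B').card

/-- Two translates of `B` by elements of `A` with at most one common element. -/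
theorem two_translates {G : Type} [AddCommGroup G] [DecidableEq G] {n : ℕ} {A B : Finset G}
    (hA : A.Nonempty) (hB : B.card = n) (h : n * (n - 1) + 2 < 2 * (A - A).card) :
    ∃ a ∈ A, ∃ a' ∈ A, 2 * n - 1 ≤ (({a, a'} : Finset G) + B).card := by
  by_contra hcon
  push Not at hcon
  have hfib : ∀ d ∈ (A - A).erase 0,
      2 ≤ ((B.offDiag.filter fun x => x.1 - x.2 ∈ (A - A).erase 0).filter
        fun x => x.1 - x.2 = d).card := by
    intro d hd
    obtain ⟨hd0, hdA⟩ := mem_erase.1 hd
    obtain ⟨a, ha, a', ha', rfl⟩ := mem_sub.1 hdA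
    have h1 := hcon a ha a' ha'
    set U := B.image (a + ·)
    set V := B.image (a' + ·)
    have hU : U.card = n := by
      rw [card_image_of_injective _ (add_right_injective a), hB]
    have hV : V.card = n := by
      rw [card_image_of_injective _ (add_right_injective a'), hB]
    have hsub : U ∪ V ⊆ ({a, a'} : Finset G) + B := by
      intro x hx
      rw [mem_union] at hx
      rcases hx with hx | hx
      · obtain ⟨b, hb, rfl⟩ := mem_image.1 hx
        exact add_mem_add (by simp) hb
      · obtain ⟨b, hb, rfl⟩ := mem_image.1 hx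
        exact add_mem_add (by simp) hb
    have h2 := card_le_card hsub
    have h3 := card_union_add_card_inter U V
    have h4 : 2 ≤ (U ∩ V).card := by omega
    refine h4.trans (card_le_card_of_injOn (fun x => (x - a', x - a)) ?_ ?_)
    · intro x hx
      have hx' := mem_inter.1 (mem_coe.1 hx)
      obtain ⟨b, hb, hbx⟩ := mem_image.1 hx'.1
      obtain ⟨b', hb', hbx'⟩ := mem_image.1 hx'.2
      have e1 : x - a = b := by rw [← hbx]; simp
      have e2 : x - a' = b' := by rw [← hbx']; simp
      have e3 : b' - b = a - a' := by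
        rw [← e1, ← e2]
        abel
      have e4 : b' ≠ b := by
        intro h0
        apply hd0
        rw [← e3, h0, sub_self]
      simp only [coe_filter, mem_filter, mem_offDiag, Set.mem_ofPred_eq]
      rw [e1, e2]
      exact ⟨⟨⟨hb', hb, e4⟩, by rw [e3]; exact hd⟩, e3⟩
    · intro x _ y _ hxy
      have := congrArg Prod.fst hxy
      exact sub_left_injective this
  have h5 := mul_card_image_le_card_of_maps_to (f := fun x : G × G => x.1 - x.2)
    (s := B.offDiag.filter fun x => x.1 - x.2 ∈ (A - A).erase 0) (t := (A - A).erase 0)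
    (fun x hx => (mem_filter.1 hx).2) 2 hfib
  have h6 : (B.offDiag.filter fun x => x.1 - x.2 ∈ (A - A).erase 0).card ≤ n * n - n := by
    refine (card_filter_le _ _).trans ?_
    rw [offDiag_card, hB]
  have h7 : (0 : G) ∈ A - A := by
    obtain ⟨a, ha⟩ := hA
    exact mem_sub.2 ⟨a, ha, a, ha, sub_self a⟩
  rw [card_erase_of_mem h7] at h5
  have h8 : n * (n - 1) = n * n - n := by
    rw [Nat.mul_sub, mul_one]
  omega

theorem admissible {c : ℝ} (hc : 2 ≤ c) : Admissible c (fun n => min (n : ℝ) 2) := by
  intro p n hp hn h3n A B hA hB hL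
  have hne : A.Nonempty := by
    rw [← card_pos, hA]
    exact hn
  rcases Nat.lt_or_ge n 2 with hn2 | hn2
  · obtain rfl : n = 1 := by omega
    refine ⟨A, Subset.refl A, B, Subset.refl B, ?_, ?_, ?_⟩
    · rw [hA]
      norm_num
    · rw [hB]
      norm_num
      linarith
    · have hne' : B.Nonempty := by
        rw [← card_pos, hB]
        exact hn
      have := (hne.add hne').card_pos
      omega
  · have hL' : n * (n - 1) + 2 < 2 * (A - A).card := by
      rcases hL with h | h
      · omega
      · rwa [hA] at h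
    obtain ⟨a, ha, a', ha', h⟩ := two_translates hne hB hL'
    have hmin : min (n : ℝ) 2 = 2 := min_eq_right (by exact_mod_cast hn2)
    refine ⟨{a, a'}, ?_, B, Subset.refl B, ?_, ?_, h⟩
    · intro x hx
      rw [mem_insert, mem_singleton] at hx
      rcases hx with rfl | rfl
      · exact ha
      · exact ha'
    · show _ ≤ min (n : ℝ) 2
      rw [hmin]
      exact_mod_cast card_le_two
    · show _ ≤ c * n / min (n : ℝ) 2
      rw [hmin, hB, le_div_iff₀ two_pos]
      have h0 : (0 : ℝ) ≤ n := Nat.cast_nonneg n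
      nlinarith

/-- **Main theorem.** -/
theorem result :
    (∀ c : ℝ, (∃ c₁ : ℕ → ℝ, (∀ n, 0 < n → 0 < c₁ n) ∧ Admissible c c₁) ↔ 2 ≤ c) ∧
    (∀ c : ℝ, Balanced c → 3 ≤ c) ∧
    (∀ p n : ℕ, p.Prime → 0 < n → 3 * n ≤ p → n ≤ 3 → ∀ A : Finset (ZMod p), A.card = n →
      Large A) := by
  refine ⟨fun c => ⟨?_, fun hc => ⟨_, fun n hn => ?_, admissible hc⟩⟩, ?_, ?_⟩
  · rintro ⟨c₁, hpos, h⟩
    obtain ⟨A', hA', B', hB', h1, h2, h3⟩ := h 7 2 (by norm_num) two_pos (by norm_num)
      ({0, 1} : Finset (ZMod 7)) {0, 1} (by decide) (by decide) (Or.inr (by decide))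
    have c1 := card_le_card hA'
    have c2 := card_le_card hB'
    have e : ({0, 1} : Finset (ZMod 7)).card = 2 := by decide
    rw [e] at c1 c2
    have c3 := card_add_le (s := A') (t := B')
    have h4 : A'.card = 2 ∧ B'.card = 2 := by
      have h5 : 3 ≤ A'.card * B'.card := by omega
      interval_cases A'.card <;> interval_cases B'.card <;> omega
    have hp := hpos 2 two_pos
    rw [h4.1] at h1
    rw [h4.2, le_div_iff₀ hp] at h2
    push_cast at h1 h2
    linarith
  · positivity
  · intro c h
    obtain ⟨A', hA', B', hB', h1, h2, h3⟩ := h 11 3 (by norm_num) three_pos (by norm_num)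
      ({0, 1, 2} : Finset (ZMod 11)) {0, 1, 2} (by decide) (by decide) (Or.inr (by decide))
    have c3 := card_add_le (s := A') (t := B')
    have h4 : 3 ≤ A'.card := by
      by_contra hlt
      have h5 : A'.card ≤ 2 := by omega
      rw [← h1] at c3
      have h6 : A'.card * A'.card ≤ 2 * 2 := Nat.mul_le_mul h5 h5
      omega
    have h5 : (3 : ℝ) ≤ √(c * (3 : ℕ)) := le_trans (by exact_mod_cast h4) h2
    have h6 : (3 : ℝ) ^ 2 ≤ c * (3 : ℕ) := by
      rw [← Real.le_sqrt' (by norm_num)]
      exact h5
    push_cast at h6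
    linarith
  · intro p n hp hn h3n hn3 A hA
    have : Fact p.Prime := ⟨hp⟩
    have hne : A.Nonempty := by
      rw [← card_pos, hA]
      exact hn
    rcases Nat.lt_or_ge n 2 with hn2 | hn2
    · left
      omega
    · right
      have h1 := ZMod.cauchy_davenport hp hne hne.neg
      rw [card_neg, ← sub_eq_add_neg, hA] at h1
      have h2 : 2 * n - 1 ≤ (A - A).card := le_trans (by omega) h1
      rw [hA]
      interval_cases n <;> omega

end Pool.Agent.Results.MP_10cf1f_co.LargeDifferences
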