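import Pool.Agent.Bal36.LowP
import Pool.Agent.Bal36.Tr
import Pool.Agent.Bal48.Base

/-!
# Balanced and unbalanced subsets with large sumsets: rectifiable pairs

The question of MP_10cf1f_co restricted to classes of pairs `A, B` for which no sum wraps around: the pairs lying in
progressions of `Z_p` with a common difference and together at most `p + 1` terms, and all pairs of `n`-element sets in
`Z_p` for `p > 16 ^ (n - 1)`. Three elements of `B` suffice for these pairs, so `(3, n)` is admissible, while no
`c < 36 / 11` has the balanced property. So the answer is negative in these classes.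

The proof of the first part: for sets of integers let `N = max B - min B`. Then `A + {min B, max B}` has at least
`|A| + r` elements, where `r` is the number of residue classes modulo `N` met by `A`, and for a suitable third element
`b` of `B`, by averaging, at least `|B| - 1 - r` elements of `A + b` are in new residue classes. By Dirichlet's
theorem on simultaneous approximation, all pairs in `Z_p` with `p > 16 ^ (n - 1)` are translates of dilates of pairs
of sets of integers less than `p / 4` in absolute value. The second part is the case `n = 11`,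
`A = B = {0, 1, ..., 10}`: for two subsets with at most five elements the sumset is not `{0, 1, ..., 20}`.
-/

namespace Pool.Agent.Results.MP_10cf1f_co.RectifiablePairs

open Finset Pool.Agent.Bal36 Pool.Agent.Bal48
open scoped Pointwise

/-- A class of pairs of sets `A, B` in `Z_p`, for all `p`. -/
abbrev Pairs : Type := ∀ p : ℕ, Finset (ZMod p) → Finset (ZMod p) → Prop

/-- `(c, c₁)` is admissible for the pairs of the class `P`. -/
def Admissible (P : Pairs) (c : ℝ) (c₁ : ℕ → ℝ) : Prop :=
  ∀ p n : ℕ, p.Prime → 0 < n → 3 * n ≤ p → ∀ A B : Finset (ZMod p), A.card = n → B.card = n →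
    P p A B → ∃ A' ⊆ A, ∃ B' ⊆ B, (A'.card : ℝ) ≤ c₁ n ∧ (B'.card : ℝ) ≤ c * n / c₁ n ∧
      2 * n - 1 ≤ (A' + B').card

/-- `c` has the balanced property for the pairs of the class `P`. -/
def Balanced (P : Pairs) (c : ℝ) : Prop :=
  ∀ p n : ℕ, p.Prime → 0 < n → 3 * n ≤ p → ∀ A B : Finset (ZMod p), A.card = n → B.card = n →
    P p A B → ∃ A' ⊆ A, ∃ B' ⊆ B, A'.card = B'.card ∧ (A'.card : ℝ) ≤ √(c * n) ∧
      2 * n - 1 ≤ (A' + B').card

/-- `A` and `B` lie in progressions with a common difference `d ≠ 0` and `L` and `M` terms, `L + M ≤ p + 1`. -/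
def Short (p : ℕ) (A B : Finset (ZMod p)) : Prop :=
  ∃ (a b d : ZMod p) (L M : ℕ), d ≠ 0 ∧ L + M ≤ p + 1 ∧
    A ⊆ (range L).image (fun i : ℕ => a + i * d) ∧ B ⊆ (range M).image (fun i : ℕ => b + i * d)

theorem admissible (P : Pairs)
    (hP : ∀ p A B, p.Prime → A.card = B.card → P p A B → Short p A B ∨ 16 ^ (A.card - 1) < p) (c : ℝ)
    (hc : 3 ≤ c) : Admissible P c (fun n => (n : ℝ)) := by
  intro p n hp hn h3n A B hA hB hAB
  have : Fact p.Prime := ⟨hp⟩
  have key : ∃ B' ⊆ B, B'.card ≤ 3 ∧ 2 * n - 1 ≤ (A + B').card := by
    rcases hP p A B hp (hA.trans hB.symm) hAB with h | h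
    · obtain ⟨a, b, d, L, M, hd, hLM, h1, h2⟩ := h
      exact short_three hn hA hB hd hLM h1 h2
    · rw [hA] at h
      exact three_zmod n p hn h A B hA hB
  obtain ⟨B', hB', h3, hs⟩ := key
  refine ⟨A, Finset.Subset.refl A, B', hB', by rw [hA], ?_, hs⟩
  have hn' : (n : ℝ) ≠ 0 := by positivity
  have h3' : (B'.card : ℝ) ≤ 3 := by exact_mod_cast h3
  rw [mul_div_assoc, div_self hn', mul_one]
  linarith

theorem not_balanced (P : Pairs) (f : ℕ → ℕ)
    (hP : ∀ p A B, p.Prime → A.card = B.card → Short p A B → f A.card < p → P p A B)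
    (c : ℝ) (hc : c < 36 / 11) : ¬ Balanced P c := by
  intro h
  obtain ⟨p, hple, hp⟩ := Nat.exists_infinite_primes (33 + (f 11 + 1))
  have hcard : ((range 11).image (fun i : ℕ => (i : ZMod p))).card = 11 := by
    rw [Finset.card_image_of_injOn, Finset.card_range]
    intro i hi j hj hij
    rw [Finset.mem_coe, Finset.mem_range] at hi hj
    exact cast_inj (p := p) (by omega) (by omega) hij
  have : Fact p.Prime := ⟨hp⟩
  have hshort : Short p ((range 11).image (fun i : ℕ => (i : ZMod p)))
      ((range 11).image (fun i : ℕ => (i : ZMod p))) :=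
    ⟨0, 0, 1, 11, 11, one_ne_zero, by omega, by simp, by simp⟩
  obtain ⟨A', hA', B', hB', hAB, hle, hs⟩ := h p 11 hp (by norm_num) (by omega) _ _
    hcard hcard (hP p _ _ hp rfl hshort (by rw [hcard]; omega))
  have h6 : √(c * (11 : ℕ)) < 6 := by
    rw [Real.sqrt_lt' (by norm_num)]
    push_cast
    linarith
  have h5 : (A'.card : ℝ) < 6 := lt_of_le_of_lt hle h6
  have h5' : A'.card < 6 := by exact_mod_cast h5
  exact lowP (p := p) (by omega) hA' hB' (by omega) (by omega) hs

/-- **Result.** Only pairs with `|A| = |B|` in `Z_p` for primes `p` are considered. Let all pairs of the class `P` be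
short, or satisfy `p > 16 ^ (|A| - 1)`, and let `P` contain, for some function `f`, all short pairs with `p > f |A|`.
Then for all `c` with `3 ≤ c < 36 / 11` the pair `(c, n)` is admissible for `P`, but `c` does not have the balanced
property for `P`. So the answer to the question restricted to `P` is negative, for instance for the class of all short
pairs, and for the class of all pairs of `n`-element sets in `Z_p` with `p > 16 ^ (n - 1)`, or with `p > f n` for some
`f n ≥ 16 ^ (n - 1)`. -/
theorem result (P : Pairs) (f : ℕ → ℕ)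
    (h1 : ∀ p A B, p.Prime → A.card = B.card → P p A B → Short p A B ∨ 16 ^ (A.card - 1) < p)
    (h2 : ∀ p A B, p.Prime → A.card = B.card → Short p A B → f A.card < p → P p A B)
    (c : ℝ) (h3 : 3 ≤ c) (hc : c < 36 / 11) :
    Admissible P c (fun n => (n : ℝ)) ∧ ¬ Balanced P c :=
  ⟨admissible P h1 c h3, not_balanced P f h2 c hc⟩

end Pool.Agent.Results.MP_10cf1f_co.RectifiablePairs
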