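import Mathlib
import Pool.Agent.Bal36.Low

/-!
# Balanced and unbalanced choices: the constants below 36/11

Throughout `p` is a prime, `1 ≤ n ≤ p/3`, and `A`, `B` are sets of `n` elements of `ℤ/p`. No constant `c < 36/11` has
the balanced property, so for these `c` the assertion of Q1 for `c` (if `(c, c₁)` is admissible then `c` has the
balanced property) holds if and only if no pair `(c, c₁)` is admissible. No pair is admissible if `c < 5/2`.
-/

namespace Pool.Agent.Results.MP_10cf1f_co.SmallConstants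

open scoped Pointwise

/-- The pair `(c, c₁)` is admissible: for every prime `p`, every `1 ≤ n ≤ p/3` and all `A`, `B` with `n` elements in
`ℤ/p` there are `A' ⊆ A`, `B' ⊆ B` with `|A'| ≤ c₁(n)`, `|B'| ≤ c n / c₁(n)` and `|A' + B'| ≥ 2n - 1`. -/
def Admissible (c : ℝ) (c₁ : ℕ → ℝ) : Prop :=
  ∀ p : ℕ, p.Prime → ∀ n : ℕ, 0 < n → (n : ℝ) ≤ (p : ℝ) / 3 →
    ∀ A B : Finset (ZMod p), A.card = n → B.card = n →
      ∃ A' B' : Finset (ZMod p), A' ⊆ A ∧ B' ⊆ B ∧ (A'.card : ℝ) ≤ c₁ n ∧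
        (B'.card : ℝ) ≤ c * n / c₁ n ∧ 2 * n - 1 ≤ (A' + B').card

/-- The constant `c` has the balanced property: for every prime `p`, every `1 ≤ n ≤ p/3` and all `A`, `B` with `n`
elements in `ℤ/p` there are `A' ⊆ A`, `B' ⊆ B` with `|A'| = |B'| ≤ √(c n)` and `|A' + B'| ≥ 2n - 1`. -/
def Balanced (c : ℝ) : Prop :=
  ∀ p : ℕ, p.Prime → ∀ n : ℕ, 0 < n → (n : ℝ) ≤ (p : ℝ) / 3 →
    ∀ A B : Finset (ZMod p), A.card = n → B.card = n →
      ∃ A' B' : Finset (ZMod p), A' ⊆ A ∧ B' ⊆ B ∧ A'.card = B'.card ∧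
        (A'.card : ℝ) ≤ √(c * n) ∧ 2 * n - 1 ≤ (A' + B').card

/-- The assertion of Q1 for the constant `c`: if `(c, c₁)` is admissible for some positive function `c₁` of the
positive integers, then `c` has the balanced property. -/
def QuestionAt (c : ℝ) : Prop :=
  ∀ c₁ : ℕ → ℝ, (∀ n, 0 < n → 0 < c₁ n) → Admissible c c₁ → Balanced c

/-! ### The finite checks -/

theorem chk1 : ∀ X ∈ (Finset.range 11).powerset, ∀ Y ∈ (Finset.range 11).powerset,
    X.card ≤ 5 → Y.card ≤ 5 → (X + Y).card < 21 := by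
  intro X hX Y hY cX cY
  rw [Finset.mem_powerset] at hX hY
  by_contra hlt
  rw [not_lt] at hlt
  have hsub : X + Y ⊆ Finset.range 21 := by
    intro z hz
    obtain ⟨x, hx, y, hy, rfl⟩ := Finset.mem_add.1 hz
    have h1 := Finset.mem_range.1 (hX hx)
    have h2 := Finset.mem_range.1 (hY hy)
    rw [Finset.mem_range]
    omega
  have heq : X + Y = Finset.range 21 :=
    Finset.eq_of_subset_of_card_le hsub (by simpa using hlt)
  refine Pool.Agent.Bal36.no_cover hX hY cX cY (fun j hj => ?_)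
  have hj' : j ∈ X + Y := by
    rw [heq]
    exact Finset.mem_range.2 hj
  exact Finset.mem_add.1 hj'

theorem chk2 : ∀ X ∈ (Finset.range 6).powerset, ∀ Y ∈ (Finset.range 6).powerset,
    X.card ≤ 3 → Y.card ≤ 4 → (X + Y).card < 11 := by
  decide +kernel

theorem chk3 : ∀ X ∈ ({0, 1, 2, 3, 5, 6} : Finset ℕ).powerset, ∀ Y ∈ (Finset.range 6).powerset,
    X.card ≤ 6 → Y.card ≤ 2 → (X + Y).card < 11 := by
  decide +kernel

/-! ### From the natural numbers to residue classes -/

/-- The residue classes of the elements of a set of natural numbers. -/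
def cst (p : ℕ) (S : Finset ℕ) : Finset (ZMod p) := S.image (fun i : ℕ => (i : ZMod p))

theorem injOn_cst {p : ℕ} {S : Finset ℕ} (hS : ∀ i ∈ S, i < p) :
    Set.InjOn (fun i : ℕ => (i : ZMod p)) (S : Set ℕ) := by
  intro i hi j hj h
  have h1 := (ZMod.natCast_eq_natCast_iff' i j p).1 h
  rwa [Nat.mod_eq_of_lt (hS i hi), Nat.mod_eq_of_lt (hS j hj)] at h1

theorem card_cst {p : ℕ} {S : Finset ℕ} (hS : ∀ i ∈ S, i < p) : (cst p S).card = S.card :=
  Finset.card_image_of_injOn (injOn_cst hS)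

theorem lift_cst {p : ℕ} {S : Finset ℕ} (hS : ∀ i ∈ S, i < p) {X : Finset (ZMod p)}
    (hX : X ⊆ cst p S) : ∃ X' ∈ S.powerset, X = cst p X' ∧ X'.card = X.card := by
  obtain ⟨X', h1, h2⟩ := Finset.subset_image_iff.1 hX
  have h1' : X' ⊆ S := by exact_mod_cast h1
  refine ⟨X', Finset.mem_powerset.2 h1', h2.symm, ?_⟩
  rw [← h2]
  exact (card_cst (fun i hi => hS i (h1' hi))).symm

theorem card_add_cst (p : ℕ) (X Y : Finset ℕ) : (cst p X + cst p Y).card ≤ (X + Y).card := by
  have h : cst p (X + Y) = cst p X + cst p Y :=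
    Finset.image_add (Nat.castAddMonoidHom (ZMod p))
  rw [← h]
  exact Finset.card_image_le

theorem key {p : ℕ} {S T : Finset ℕ} (hS : ∀ i ∈ S, i < p) (hT : ∀ i ∈ T, i < p) {a b N : ℕ}
    (h : ∀ X ∈ S.powerset, ∀ Y ∈ T.powerset, X.card ≤ a → Y.card ≤ b → (X + Y).card < N)
    {X Y : Finset (ZMod p)} (hX : X ⊆ cst p S) (hY : Y ⊆ cst p T) (ha : X.card ≤ a)
    (hb : Y.card ≤ b) : (X + Y).card < N := by
  obtain ⟨X', h1, rfl, h2⟩ := lift_cst hS hX
  obtain ⟨Y', h3, rfl, h4⟩ := lift_cst hT hY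
  exact (card_add_cst p X' Y').trans_lt (h X' h1 Y' h3 (h2.trans_le ha) (h4.trans_le hb))

/-! ### The two parts -/

theorem not_balanced {c : ℝ} (hc : c < 36 / 11) : ¬ Balanced c := by
  intro h
  have hS : ∀ i ∈ Finset.range 11, i < 37 := by decide
  obtain ⟨A', B', hA, hB, hAB, hcard, hsum⟩ := h 37 (by norm_num) 11 (by norm_num) (by norm_num)
    (cst 37 (Finset.range 11)) (cst 37 (Finset.range 11)) (card_cst hS) (card_cst hS)
  have h1 : √(c * (11 : ℕ)) < 6 := by
    rw [Real.sqrt_lt' (by norm_num)]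
    push_cast
    linarith
  have h2 : A'.card < 6 := by
    have : (A'.card : ℝ) < (6 : ℕ) := by
      push_cast
      push_cast at hcard h1
      linarith
    exact_mod_cast this
  have h3 := key hS hS chk1 hA hB (by omega) (by omega)
  omega

theorem not_admissible {c : ℝ} (hc : c < 5 / 2) (c₁ : ℕ → ℝ) (h0 : ∀ n, 0 < n → 0 < c₁ n) :
    ¬ Admissible c c₁ := by
  intro h
  have hI : ∀ i ∈ Finset.range 6, i < 19 := by decide
  have hJ : ∀ i ∈ ({0, 1, 2, 3, 5, 6} : Finset ℕ), i < 19 := by decide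
  have cI : (cst 19 (Finset.range 6)).card = 6 := card_cst hI
  have cJ : (cst 19 ({0, 1, 2, 3, 5, 6} : Finset ℕ)).card = 6 := card_cst hJ
  have H := h 19 (by norm_num) 6 (by norm_num) (by norm_num)
  have ht : 0 < c₁ 6 := h0 6 (by norm_num)
  have hb : ∀ s : ℝ, 0 < s → s ≤ c₁ 6 → c * (6 : ℕ) / c₁ 6 < 15 / s := by
    intro s hs hst
    calc c * (6 : ℕ) / c₁ 6 < 15 / c₁ 6 := by
          apply div_lt_div_of_pos_right _ ht
          push_cast
          linarith
      _ ≤ 15 / s := div_le_div_of_nonneg_left (by norm_num) hs hst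
  rcases lt_or_ge (c₁ 6) 3 with h3 | h3
  · obtain ⟨A', B', hA, hB, ha, -, hsum⟩ := H (cst 19 (Finset.range 6))
      (cst 19 ({0, 1, 2, 3, 5, 6} : Finset ℕ)) cI cJ
    have h2 : A'.card < 3 := by
      have : (A'.card : ℝ) < (3 : ℕ) := by
        push_cast
        linarith
      exact_mod_cast this
    have h4 : B'.card ≤ 6 := (Finset.card_le_card hB).trans cJ.le
    have h5 := key hJ hI chk3 hB hA h4 (by omega)
    rw [add_comm] at h5
    omega
  rcases lt_or_ge (c₁ 6) 4 with h4 | h4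
  · obtain ⟨A', B', hA, hB, ha, hb', hsum⟩ := H (cst 19 (Finset.range 6))
      (cst 19 (Finset.range 6)) cI cI
    have h5 : A'.card < 4 := by
      have : (A'.card : ℝ) < (4 : ℕ) := by
        push_cast
        linarith
      exact_mod_cast this
    have h6 : B'.card < 5 := by
      have h7 := hb'.trans_lt (hb 3 (by norm_num) h3)
      have : (B'.card : ℝ) < (5 : ℕ) := by
        push_cast
        linarith
      exact_mod_cast this
    have h7 := key hI hI chk2 hA hB (by omega) (by omega)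
    omega
  rcases lt_or_ge (c₁ 6) 5 with h5 | h5
  · obtain ⟨A', B', hA, hB, ha, hb', hsum⟩ := H (cst 19 (Finset.range 6))
      (cst 19 (Finset.range 6)) cI cI
    have h6 : A'.card < 5 := by
      have : (A'.card : ℝ) < (5 : ℕ) := by
        push_cast
        linarith
      exact_mod_cast this
    have h7 : B'.card < 4 := by
      have h8 := hb'.trans_lt (hb 4 (by norm_num) h4)
      have : (B'.card : ℝ) < (4 : ℕ) := by
        push_cast
        linarith
      exact_mod_cast this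
    have h8 := key hI hI chk2 hB hA (by omega) (by omega)
    rw [add_comm] at h8
    omega
  · obtain ⟨A', B', hA, hB, ha, hb', hsum⟩ := H
      (cst 19 ({0, 1, 2, 3, 5, 6} : Finset ℕ)) (cst 19 (Finset.range 6)) cJ cI
    have h6 : B'.card < 3 := by
      have h8 := hb'.trans_lt (hb 5 (by norm_num) h5)
      have : (B'.card : ℝ) < (3 : ℕ) := by
        push_cast
        linarith
      exact_mod_cast this
    have h7 : A'.card ≤ 6 := (Finset.card_le_card hA).trans cJ.le
    have h8 := key hJ hI chk3 hA hB h7 (by omega)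
    omega

theorem result (c : ℝ) (_hc0 : 0 < c) (hc : c < 36 / 11) :
    ¬ Balanced c ∧
    (QuestionAt c ↔ ∀ c₁ : ℕ → ℝ, (∀ n, 0 < n → 0 < c₁ n) → ¬ Admissible c c₁) ∧
    (c < 5 / 2 → (∀ c₁ : ℕ → ℝ, (∀ n, 0 < n → 0 < c₁ n) → ¬ Admissible c c₁) ∧ QuestionAt c) :=
  ⟨not_balanced hc,
    ⟨fun h c₁ h0 ha => not_balanced hc (h c₁ h0 ha), fun h c₁ h0 ha => absurd ha (h c₁ h0)⟩,
    fun h => ⟨fun c₁ h0 => not_admissible h c₁ h0,
      fun c₁ h0 ha => absurd ha (not_admissible h c₁ h0)⟩⟩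

end Pool.Agent.Results.MP_10cf1f_co.SmallConstants
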